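import Pool.Agent.Helper57.TX.Defs

/-!
# NS: number rigidity of the zeros with the sharp exponent: definitions

The scales are `(1 + k) ^ j ∈ [L ^ k, L ^ (1 - k)]`, `0 < k ≤ 1/8`; `ph k L` is the mean over the scales `M` of the kernels
`(3/2) q (2 π x/M)`.
-/

set_option autoImplicit false
open MeasureTheory Set Filter Topology
open Pool.Agent.Helper57.Zeta Pool.Agent.Helper57.LH Pool.Agent.Helper57.ED
open Pool.Agent.Helper54.LG (za zb qk SS MM)
open Pool.Agent.Helper93.UG (zc sp)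
open Pool.Agent.Helper69.UG (XX NX)
open Pool.Agent.Helper57.TX (QX DP rs)

namespace Pool.Agent.Helper57.NS

/-- The scales: `L ^ k ≤ (1 + k) ^ j ≤ L ^ (1 - k)`. -/
noncomputable def Sc (k L : ℝ) : Finset ℕ :=
  (Finset.range (⌊L / k⌋₊ + 1)).filter fun j => L ^ k ≤ (1 + k) ^ j ∧ (1 + k) ^ j ≤ L ^ (1 - k)

/-- The weight of a scale. -/
noncomputable def wk (k L : ℝ) : ℝ := 3 / (2 * ((Sc k L).card : ℝ))

/-- The test function. -/
noncomputable def ph (k L x : ℝ) : ℝ := wk k L * ∑ j ∈ Sc k L, qk 0 (2 * Real.pi * x / (1 + k) ^ j)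

/-- Its integral over the line. -/
noncomputable def Mk (k L : ℝ) : ℝ := wk k L * ∑ j ∈ Sc k L, (1 + k) ^ j

/-- Its integral over `[-L, L]`. -/
noncomputable def Ak (k L : ℝ) : ℝ := ∫ x in (-L)..L, ph k L x

/-- The prime sum. -/
noncomputable def Sk (k T L t : ℝ) : ℝ := wk k L * ∑ j ∈ Sc k L, SS (XX T ((1 + k) ^ j)) t

/-- Its coefficients at the primes. -/
noncomputable def rk (k T L : ℝ) (p : ℕ) : ℝ :=
  wk k L * ∑ j ∈ Sc k L, if Real.log p ≤ XX T ((1 + k) ^ j) then rs (XX T ((1 + k) ^ j)) p else 0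

/-- The largest length. -/
noncomputable def Xk (k T L : ℝ) : ℝ := Real.log T / L ^ k

/-- The linear statistic over all zeros. -/
noncomputable def Tk (k T L t : ℝ) : ℝ := ∑' ρ : ZS, mx ρ * ph k L (((ρ : ℂ).im - t) / sp T)

open Classical in
/-- Its part at distance more than `L` mean spacings. -/
noncomputable def Ok (k T L t : ℝ) : ℝ :=
  ∑' ρ : ZS, mx ρ * (if |(ρ : ℂ).im - t| ≤ L * sp T then 0 else ph k L (((ρ : ℂ).im - t) / sp T))

/-- The window (`a = 1`) and its double (`a = 2`), radius `a L ^ (k/8)` mean spacings. -/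
noncomputable def Wk (k T L a t : ℝ) : Set ℝ := Icc (t - a * L ^ (k / 8) * sp T) (t + a * L ^ (k / 8) * sp T)

/-- `|f|` is at most `v` within distance `s` of each point of `[T/2, 3 T]` outside of a set of measure `m T`. -/
def Thick (T m v : ℝ) (f : ℝ → ℝ) : Prop :=
  ∃ E : Set ℝ, volume E ≤ ENNReal.ofReal (m * T) ∧ ∀ t ∈ Icc (T / 2) (3 * T), ∀ u : ℝ, |u - t| ≤ sp T → v < |f u| → t ∈ E

/-- The number of the zeros with ordinate in `t + W s`. -/
noncomputable def cnt (T t : ℝ) (W : Set ℝ) : ℝ := (zc {u : ℝ | (u - t) / sp T ∈ W} : ℝ)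

open Classical in
/-- The prediction from the zeros outside of `t + W s`, at distance at most `L s`. -/
noncomputable def prd (k T L t : ℝ) (W : Set ℝ) : ℝ :=
  Ak k L - ∑' ρ : ZS, mx ρ * (if |(ρ : ℂ).im - t| ≤ L * sp T ∧ ((ρ : ℂ).im - t) / sp T ∉ W then
    ph k L (((ρ : ℂ).im - t) / sp T) else 0)

/-- The failure of the prediction at `t`. -/
def Bad (k T L e t : ℝ) : Prop :=
  ∃ W : Set ℝ, W ⊆ Icc (-L ^ (k / 8)) (L ^ (k / 8)) ∧ e < |cnt T t W - prd k T L t W|

end Pool.Agent.Helper57.NS
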