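import Pool.Agent.Helper66.NS.H

/-! # NS: the prediction fails for every `W` -/

set_option autoImplicit false
open MeasureTheory Set Filter Topology
open Pool.Agent.Helper57.Zeta Pool.Agent.Helper57.LH Pool.Agent.Helper57.ED
open Pool.Agent.Helper54.LG (za zb qk SS MM qk_neg_right qk_zero_nonneg)
open Pool.Agent.Helper93.UG (zc sp)
open Pool.Agent.Helper69.UG (XX NX)
open Pool.Agent.Helper24.UG (summable_q0 zc_fin)
open Pool.Agent.Helper57.NS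

open Pool.Agent.Helper66.NS (sp_pos split_sum diff_eq ph_nonneg)

namespace Pool.Agent.Helper57.NS

/-- H: pointwise, every `W` -/
theorem bad_of_of {k : ℝ} (hk : 0 < k) (hk8 : k ≤ 1 / 8) (ph_near : ∃ C : ℝ, 1 ≤ C ∧ ∀ L x : ℝ, C ≤ L →
      |x| ≤ L ^ (k / 8) → 0 ≤ 1 - ph k L x ∧ 1 - ph k L x ≤ C * L ^ (-(7 / 4 * k))) :
    ∃ c C : ℝ, 0 < c ∧ 1 ≤ C ∧ ∀ (T L e t v : ℝ) (W : Set ℝ), 3 ≤ T →
    C ≤ L → |Ok k T L t - (Mk k L - Ak k L)| ≤ v → (zc (Wk k T L 1 t) : ℝ) ≤ L ^ (k / 4) →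
    W ⊆ Icc (-L ^ (k / 8)) (L ^ (k / 8)) → e + v + C * L ^ (-c) < |Tk k T L t - Mk k L| →
    e < |cnt T t W - prd k T L t W| := by
  obtain ⟨C, hC, hphi⟩ := ph_near
  refine ⟨3 / 2 * k, C, by positivity, hC, ?_⟩
  intro T L e t v W hT hLC h2 h3 hW hB
  have hT1 : 1 < T := by linarith
  have hs := sp_pos hT1
  have hL1 : 1 ≤ L := by linarith
  have hL0 : 0 < L := by linarith
  have hl : L ^ (k / 8) ≤ L := by
    calc L ^ (k / 8) ≤ L ^ (1 : ℝ) := Real.rpow_le_rpow_of_exponent_le hL1 (by linarith)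
      _ = L := Real.rpow_one L
  obtain ⟨F, hF, hcnt, hTot⟩ := split_sum (t := t) hk hT1 (hW.trans (Icc_subset_Icc (neg_le_neg hl) hl))
  have h4 := diff_eq hcnt hTot
  have h5 : 0 ≤ ∑ ρ ∈ F, mx ρ * (1 - ph k L (((ρ : ℂ).im - t) / sp T)) ∧
      ∑ ρ ∈ F, mx ρ * (1 - ph k L (((ρ : ℂ).im - t) / sp T)) ≤ C * L ^ (-(7 / 4 * k)) * (zc (Wk k T L 1 t) : ℝ) := by
    have hx : ∀ ρ ∈ F, |((ρ : ℂ).im - t) / sp T| ≤ L ^ (k / 8) := by
      intro ρ hρ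
      have := hW ((hF ρ).1 hρ)
      rw [abs_le]
      exact this
    constructor
    · exact Finset.sum_nonneg fun ρ hρ => mul_nonneg (mx_nonneg _) (hphi L _ hLC (hx ρ hρ)).1
    · obtain ⟨F', hF', h6⟩ := zc_fin (I := Wk k T L 1 t) (a := t - 1 * L ^ (k / 8) * sp T)
        (b := t + 1 * L ^ (k / 8) * sp T) subset_rfl
      have hFF : F ⊆ F' := by
        intro ρ hρ
        rw [hF' ρ]
        have h7 := abs_le.1 (hx ρ hρ)
        rw [le_div_iff₀ hs, div_le_iff₀ hs] at h7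
        unfold Wk
        rw [mem_Icc]
        constructor <;> linarith [h7.1, h7.2]
      calc ∑ ρ ∈ F, mx ρ * (1 - ph k L (((ρ : ℂ).im - t) / sp T)) ≤ ∑ ρ ∈ F, mx ρ * (C * L ^ (-(7 / 4 * k))) :=
            Finset.sum_le_sum fun ρ hρ => mul_le_mul_of_nonneg_left (hphi L _ hLC (hx ρ hρ)).2 (mx_nonneg _)
        _ = C * L ^ (-(7 / 4 * k)) * ∑ ρ ∈ F, mx ρ := by rw [← Finset.sum_mul]; ring
        _ ≤ C * L ^ (-(7 / 4 * k)) * ∑ ρ ∈ F', mx ρ := by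
            refine mul_le_mul_of_nonneg_left ?_ (by positivity)
            exact Finset.sum_le_sum_of_subset_of_nonneg hFF fun ρ _ _ => mx_nonneg _
        _ = _ := by rw [h6]
  have h6 : C * L ^ (-(7 / 4 * k)) * (zc (Wk k T L 1 t) : ℝ) ≤ C * L ^ (-(3 / 2 * k)) := by
    calc C * L ^ (-(7 / 4 * k)) * (zc (Wk k T L 1 t) : ℝ) ≤ C * L ^ (-(7 / 4 * k)) * L ^ (k / 4) :=
          mul_le_mul_of_nonneg_left h3 (by positivity)
      _ = C * (L ^ (-(7 / 4 * k)) * L ^ (k / 4)) := by ring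
      _ = C * L ^ (-(3 / 2 * k)) := by
          rw [← Real.rpow_add hL0]
          congr 2
          ring
  by_contra hcon
  rw [not_lt, h4, abs_le] at hcon
  have h9 := abs_le.1 h2
  have h10 : |Tk k T L t - Mk k L| ≤ e + v + C * L ^ (-(3 / 2 * k)) := by
    rw [abs_le]
    constructor <;> linarith [hcon.1, hcon.2, h5.1, h5.2, h6, h9.1, h9.2]
  linarith

theorem bad_of {k : ℝ} (hk : 0 < k) (hk8 : k ≤ 1 / 8) : ∃ c C : ℝ, 0 < c ∧ 1 ≤ C ∧ ∀ (T L e t v : ℝ) (W : Set ℝ), 3 ≤ T →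
    C ≤ L → |Ok k T L t - (Mk k L - Ak k L)| ≤ v → (zc (Wk k T L 1 t) : ℝ) ≤ L ^ (k / 4) →
    W ⊆ Icc (-L ^ (k / 8)) (L ^ (k / 8)) → e + v + C * L ^ (-c) < |Tk k T L t - Mk k L| →
    e < |cnt T t W - prd k T L t W| :=
  bad_of_of hk hk8 (Pool.Agent.Helper38.NS.ph_near hk hk8)

end Pool.Agent.Helper57.NS
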