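import Pool.Agent.Helper60.NS.TotA
import Pool.Agent.Helper60.NS.Prime
import Pool.Agent.Helper62.NS.Low
import Pool.Agent.Helper49.NRS.ReMom
import Pool.Agent.Helper93.NS.VarLowR
import Pool.Agent.Helper57.NS.BadOf
import Pool.Agent.Helper82.NS.Fin
import Pool.Agent.Helper53.NS.Dev
import Pool.Agent.Helper90.NS.Out
import Pool.Agent.Helper21.NS.Win
import Pool.Agent.Helper10.NS.PalmQ
import Pool.Agent.Helper44.NS.GLow
import Pool.Agent.Helper24.NS.Fin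
import Pool.Agent.Helper57.TX.Final

/-! # NS: assembly -/

set_option autoImplicit false
open MeasureTheory Set Filter Topology
open Pool.Agent.Helper57.Zeta Pool.Agent.Helper57.LH Pool.Agent.Helper57.ED
open Pool.Agent.Helper54.LG (za zb qk SS MM)
open Pool.Agent.Helper93.UG (zc sp)
open Pool.Agent.Helper69.UG (XX NX near far)
open Pool.Agent.Helper57.TX (QX DP rs)

namespace Pool.Agent.Helper57.NS

theorem out_thick {k : ℝ} (hk : 0 < k) (hk8 : k ≤ 1 / 8) : Pool.Agent.Helper24.NS.OutThick k :=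
  Pool.Agent.Helper90.NS.out_thick_of
    (fun eta B h0 _ hB => Pool.Agent.Helper53.NS.dev_thick Pool.Agent.Helper57.TX.tx1 eta B h0 hB) hk hk8

theorem win_count {k : ℝ} (hk : 0 < k) (hk8 : k ≤ 1 / 8) : Pool.Agent.Helper24.NS.WinCount k := by
  obtain ⟨C, T₀, hC, H⟩ := Pool.Agent.Helper21.NS.win_of Pool.Agent.Helper57.TX.tx1 (k₁ := k / 8) (k₂ := k / 4) (B := 4)
    (by positivity) (by linarith) (by linarith) (by norm_num)
  refine ⟨C, T₀, hC, fun T L hT hL hLT => ?_⟩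
  have hL0 : 0 ≤ L := by linarith
  exact H T L (2 * L ^ (k / 8)) hT hL hLT (by positivity) le_rfl

theorem palm : Pool.Agent.Helper24.NS.Palm := by
  intro q
  obtain ⟨C, T₀, hC, H⟩ := Pool.Agent.Helper10.NS.palmq_of Pool.Agent.Helper57.TX.tx1 (q + 1) (by omega)
  have hq : (0:ℝ) ≤ q := Nat.cast_nonneg q
  set a : ℝ := 1 - 1 / (2 * ((q + 1 : ℕ) : ℝ)) with ha
  have ha' : a = 1 - 1 / (2 * ((q:ℝ) + 1)) := by rw [ha]; push_cast; ring
  have hab : (1 - 1 / (q + 1) : ℝ) ≤ a := by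
    rw [ha']
    have h1 : 1 / (2 * ((q:ℝ) + 1)) ≤ 1 / ((q:ℝ) + 1) := by
      apply one_div_le_one_div_of_le <;> linarith
    linarith
  have hb0 : (0:ℝ) ≤ 1 - 1 / (q + 1) := by
    have : 1 / ((q:ℝ) + 1) ≤ 1 := by rw [div_le_one (by linarith)]; linarith
    linarith
  refine ⟨C * 3 ^ a, max T₀ 10, by positivity, fun T hT B v hv hB => ?_⟩
  have hT0 : T₀ ≤ T := (le_max_left _ _).trans hT
  have hT3 : 10 ≤ T := (le_max_right _ _).trans hT
  have hlog : 0 ≤ Real.log T := Real.log_nonneg (by linarith)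
  have hTl : 0 ≤ T * Real.log T := mul_nonneg (by linarith) hlog
  have h2a : (1:ℝ) ≤ 3 ^ a := Real.one_le_rpow (by norm_num) (hb0.trans hab)
  rcases le_or_gt v 1 with h1 | h1
  · refine (H T hT0 B v hv hB).trans (mul_le_mul_of_nonneg_right ?_ hTl)
    have h3 : v ^ a ≤ v ^ (1 - 1 / (q + 1) : ℝ) := by
      rcases eq_or_lt_of_le hv with h0 | h0
      · rw [← h0]
        rcases eq_or_lt_of_le hb0 with h4 | h4
        · rw [← h4, Real.rpow_zero]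
          exact Real.zero_rpow_le_one _
        · rw [Real.zero_rpow h4.ne', Real.zero_rpow (h4.trans_le hab).ne']
      · exact Real.rpow_le_rpow_of_exponent_ge h0 h1 hab
    calc C * v ^ a ≤ C * v ^ (1 - 1 / (q + 1) : ℝ) := mul_le_mul_of_nonneg_left h3 hC.le
      _ ≤ C * 3 ^ a * v ^ (1 - 1 / (q + 1) : ℝ) :=
        mul_le_mul_of_nonneg_right (le_mul_of_one_le_right hC.le h2a) (Real.rpow_nonneg hv _)
  · have hs : 0 < sp T ∧ sp T ≤ 2 * T := by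
      have h5 : 1 ≤ Real.log T := by
        rw [Real.le_log_iff_exp_le (by linarith)]
        have := Real.exp_one_lt_d9
        linarith
      constructor
      · unfold sp
        positivity
      · unfold sp
        rw [div_le_iff₀ (by linarith)]
        nlinarith [Real.pi_lt_d2]
    have h6 := H T hT0 (Icc T (4 * T)) 3 (by norm_num) (by rw [Real.volume_Icc]; apply ENNReal.ofReal_le_ofReal; linarith)
    have h8 : {g : ℝ | T ≤ g ∧ g ≤ 2 * T ∧ Icc g (g + sp T) ⊆ B} ⊆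
        {g : ℝ | T ≤ g ∧ g ≤ 2 * T ∧ Icc g (g + sp T) ⊆ Icc T (4 * T)} := by
      intro g hg
      exact ⟨hg.1, hg.2.1, Icc_subset_Icc hg.1 (by linarith [hg.2.1, hs.2])⟩
    have h9 : {g : ℝ | T ≤ g ∧ g ≤ 2 * T ∧ Icc g (g + sp T) ⊆ Icc T (4 * T)} ⊆ Icc T (2 * T) :=
      fun g hg => ⟨hg.1, hg.2.1⟩
    have h7 : (zc {g : ℝ | T ≤ g ∧ g ≤ 2 * T ∧ Icc g (g + sp T) ⊆ B} : ℝ) ≤
        zc {g : ℝ | T ≤ g ∧ g ≤ 2 * T ∧ Icc g (g + sp T) ⊆ Icc T (4 * T)} := by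
      exact_mod_cast Pool.Agent.Helper56.UG.zc_mono h8 h9
    refine (h7.trans h6).trans (mul_le_mul_of_nonneg_right ?_ hTl)
    exact le_mul_of_one_le_right (by positivity) (Real.one_le_rpow h1.le hb0)

theorem prime_up {k : ℝ} (hk : 0 < k) (hk8 : k ≤ 1 / 8) : Pool.Agent.Helper24.NS.PrimeUp k :=
  Pool.Agent.Helper60.NS.prime_up_of hk hk8 (Pool.Agent.Helper82.NS.sl_dp hk hk8) (Pool.Agent.Helper82.NS.var_up hk hk8)

theorem prime_low {k : ℝ} (hk : 0 < k) (hk8 : k ≤ 1 / 16) : Pool.Agent.Helper24.NS.PrimeLow k :=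
  Pool.Agent.Helper62.NS.prime_low_of Pool.Agent.Helper49.NRS.re_mom hk hk8 (Pool.Agent.Helper82.NS.var_up hk (by linarith))
    (Pool.Agent.Helper93.NS.var_low hk (by linarith)) (Pool.Agent.Helper82.NS.rk_le hk (by linarith))

/-- K1: the points, upper and lower bound -/
theorem final_up {k : ℝ} (hk : 0 < k) (hk8 : k ≤ 1 / 8) : ∃ C T₀ : ℝ, 1 ≤ C ∧ ∀ T L e : ℝ, T₀ ≤ T → C ≤ L → L ≤ Real.log T →
    0 < e → e ≤ 1 → volume {t : ℝ | T ≤ t ∧ t ≤ 2 * T ∧ Bad k T L e t} ≤ ENNReal.ofReal (C * L ^ (-((1 - 6 * k) * e ^ 2)) * T) :=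
  Pool.Agent.Helper24.NS.final_up_of hk hk8 (Pool.Agent.Helper66.NS.bad_imp hk hk8) (Pool.Agent.Helper60.NS.tot_thick hk hk8)
    (out_thick hk hk8) (win_count hk hk8) (prime_up hk hk8)

theorem final_low {k : ℝ} (hk : 0 < k) (hk8 : k ≤ 1 / 16) : ∃ C T₀ : ℝ, 1 ≤ C ∧ ∀ T L e : ℝ, T₀ ≤ T → C ≤ L → L ≤ Real.log T →
    0 < e → e ≤ 1 → ENNReal.ofReal (1 / C * L ^ (-((1 + 30 * k) * e ^ 2)) * T) ≤
      volume {t : ℝ | T ≤ t ∧ t ≤ 2 * T ∧ ∀ W : Set ℝ, W ⊆ Icc (-L ^ (k / 8)) (L ^ (k / 8)) →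
        e < |cnt T t W - prd k T L t W|} :=
  Pool.Agent.Helper24.NS.final_low_of hk hk8 (bad_of hk (by linarith))
    (Pool.Agent.Helper60.NS.tot_thick hk (by linarith)) (out_thick hk (by linarith)) (win_count hk (by linarith))
    (Pool.Agent.Helper82.NS.sl_dp hk (by linarith)) (prime_low hk hk8)

/-- K2: the ordinates -/
theorem final_g {k : ℝ} (hk : 0 < k) (hk8 : k ≤ 1 / 8) : ∃ C T₀ : ℝ, 1 ≤ C ∧ ∀ T L e : ℝ, T₀ ≤ T → C ≤ L → L ≤ Real.log T →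
    0 < e → e ≤ 1 → (zc {g : ℝ | T ≤ g ∧ g ≤ 2 * T ∧ Bad k T L e g} : ℝ) ≤ C * L ^ (-((1 - 7 * k) * e ^ 2)) * (T * Real.log T) :=
  Pool.Agent.Helper24.NS.final_g_of hk hk8 (Pool.Agent.Helper66.NS.bad_imp hk hk8) (Pool.Agent.Helper60.NS.tot_thick hk hk8)
    (out_thick hk hk8) (win_count hk hk8) (prime_up hk hk8) palm

theorem final_glow {k : ℝ} (hk : 0 < k) (hk8 : k ≤ 1 / 16) : ∃ C T₀ : ℝ, 1 ≤ C ∧ ∀ T L e : ℝ, T₀ ≤ T → C ≤ L → L ≤ Real.log T →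
    0 < e → e ≤ 1 → 1 / C * L ^ (-((1 + 30 * k) * e ^ 2)) * (T * Real.log T) ≤
      (zc {g : ℝ | T ≤ g ∧ g ≤ 2 * T ∧ ∀ W : Set ℝ, W ⊆ Icc (-L ^ (k / 8)) (L ^ (k / 8)) →
        e < |cnt T g W - prd k T L g W|} : ℝ) :=
  Pool.Agent.Helper44.NS.final_g_low_of hk hk8 (Pool.Agent.Helper82.NS.sl_dp hk (by linarith)) (Pool.Agent.Helper60.NS.tot_thick hk (by linarith))
    (out_thick hk (by linarith)) (win_count hk (by linarith)) (bad_of hk (by linarith))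
    (prime_low hk hk8)

end Pool.Agent.Helper57.NS
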